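import Pool.Agent.helper51.VR.All

/-!
# MP_24e2e7_nt: for given `H/F`, `S`, `T` one set `V` decides Rubin's integrality at 2

The data `RData`, the group `UU`, Rubin's lattice `RubinL` and the Rubin-Brumer-Stark element `IsRBS` are those of the hand-in `RubinTwoPower` (`Pool/Agent/helper91/RB/Fin.lean`, `Spec5.lean`); new
definitions: `Pool/Agent/helper51/VR/Defs.lean` (`RubinAtTwo`, `Generates`, `IsGH`, `DualGen`, `MinusRank`).

Proof. Let `u_1, ..., u_r ∈ U` be elements with `u_j c(u_j) = 1`, `ord_i(u_j) = n (1 - c)` for `i = j` and 0 otherwise (they exist: finiteness of the ray class group). For `φ ∈ Hom(U, ℤ[G])` and `x c(x) = 1`: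
`2n φ(x) = ∑ ord_j(x) φ(u_j)`. So Rubin's integrality at 2 means `Θ det (φ_i(u_j)) ∈ (2n)^r ℤ_(2)[G]`. A new prime `v` which is generated by `V` at 2 adds a column which is, modulo the others, a multiple
of `(φ_i(x))`, and these are divisible by `1 - c` with `(1 - c) Θ = 2 Θ`: expand along it. A prime is removed by adding the row `ord_v` (homomorphisms extend, because `U_{V ∪ v} / U_V` is free). If all
`φ` are generated by `N` of them and the `ord_j`, multilinearity and the pigeonhole principle produce a row `ord_j` in every term of the determinant, as long as `|V| > N`.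
-/

set_option autoImplicit false

namespace Pool.Agent.Results.MP_24e2e7_nt.OneSetDecides

open Pool.Agent.RB Pool.Agent.VR NumberField IsDedekindDomain Module
open scoped nonZeroDivisors Real Classical IsMulCommutative

/-- **One set `V` decides Rubin's integrality at 2.** `F` totally real, `H` CM, abelian over `F`. `RubinAtTwo D`: `u_RBS ∈ 𝓛 ⊗ ℤ_(2)` for the data `D = (S, T, V)`.
(1) For given `S`, `T` (and some `V₁` with at least one element) there is a finite set `V₀` which generates the classes of all other primes, and the statement for `V₀` is equivalent to the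
statement for all `V`. (2) If the primes above `V₀` generate at 2 the classes of the primes above `V`, then the statement for `V₀` implies the one for `V` (of any size; in particular for subsets of `V₀`).
(3) If `Hom_{ℤ[G]}(U, ℤ[G])` is generated, at 2 and on the minus part of `U`, by `N` elements and the `ord_i`, then the statement for the subsets of `V` with `min(N, |V|)` elements implies the one for `V`.
(4) The hypothesis of (3) holds if the 2-part of the minus class group of `V` modulo `T` is generated by `N` elements. -/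
theorem result : ∀ (F H : Type) [Field F] [NumberField F] [Field H] [NumberField H] [Algebra F H]
    [IsAbelianGalois F H] [IsTotallyReal F] [IsCMField H],
    (∀ (r₁ : ℕ) (D₁ : RData F H r₁), 1 ≤ r₁ → ∃ (r₀ : ℕ) (D₀ : RData F H r₀), 1 ≤ r₀ ∧ D₀.S = D₁.S ∧ D₀.T = D₁.T ∧
      (∀ (r : ℕ) (D : RData F H r), D.S = D₁.S → D.T = D₁.T → Generates D₀ D) ∧
      (RubinAtTwo D₀ ↔ ∀ (r : ℕ) (D : RData F H r), 1 ≤ r → D.S = D₁.S → D.T = D₁.T → RubinAtTwo D)) ∧
    (∀ (r₀ r : ℕ) (D₀ : RData F H r₀) (D : RData F H r), 1 ≤ r → D₀.S = D.S → D₀.T = D.T → Generates D₀ D →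
      RubinAtTwo D₀ → RubinAtTwo D) ∧
    (∀ (r N : ℕ) (D : RData F H r), 1 ≤ r → DualGen D N →
      (∀ D' : RData F H (min N r), D'.S = D.S → D'.T = D.T → Set.range D'.v ⊆ Set.range D.v → RubinAtTwo D') → RubinAtTwo D) ∧
    ∀ (r N : ℕ) (D : RData F H r), MinusRank D N → DualGen D N := by
  intro F H _ _ _ _ _ _ _ _
  exact ⟨fun r₁ D₁ hr => fin_0 F H r₁ D₁ hr, fun r₀ r D₀ D hr hS hT hg h0 => fin_a F H r₀ r D₀ D hr hS hT hg h0,
    fun r N D hr hD h => fin_b F H r N D hr hD h, fun r N D h => fin_c F H r N D h⟩

end Pool.Agent.Results.MP_24e2e7_nt.OneSetDecides
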