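import Pool.Agent.helper51.RMX.All

/-!
# MP_24e2e7_nt: Rubin's integrality at 2 for abelian CM extensions whose degree is not a power of 2

`F` is totally real of degree `n`, `H/F` is abelian of degree `2^m l` with `l` odd, `H` is CM. The definitions are those of the hand-in `RubinTwoPower`: `Pool/Agent/helper91/RB/Fin.lean` (`QGr` = the
group ring `ℚ[G]`, `EP` = exterior power, `detm` = the determinant map, `IsQU`, `IsMinus`, Rubin's lattice `RubinL`, `IsStickelberger`, `IsRBS`), `Spec5.lean` (the data `RData`, the group `Ut`, `ordZ`)
and `Spec2.lean` (the values `chv` of characters at primes, the Euler product `LE`, its analytic continuation `isL`, the values `LST = L_{S,T}(χ, 0)`).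

Proof. Let `χ` be an odd character of order `2^s t`, `t` odd, and `K` the fixed field of `ker χ`. The product of `L_{S,T}(χ^j, 0)` over the `j` prime to `2^s t` is an alternating product, over the subfields of `K` which
contain the subfield of degree `2^s`, of quotients of class numbers, regulators and numbers of roots of unity (functional equation and residues). The index of the lattice of the elements of `U` of these fields is
compared with it by an exact sequence of the `Φ`-parts (`Φ` a cyclotomic polynomial) in which only powers of 2 matter; the ambiguous class number formula for `K/K⁺` bounds it. If 2 is a primitive root modulo `q^b`, there is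
only one prime above 2 in the field of values of `χ`, so the bound for the norm is a bound for each `χ(φ(u))`. A summation over the characters which agree on the cyclic group generated by `g₀` bounds the coefficients.
-/

set_option autoImplicit false

namespace Pool.Agent.Results.MP_24e2e7_nt.RubinMixedDegree

open Pool.Agent.RB NumberField IsDedekindDomain Module
open scoped nonZeroDivisors Real Classical IsMulCommutative

/-- **Rubin's integrality at 2, mixed degree.** `F` totally real of degree `n`, `H/F` abelian of degree `2^m l`, `l` odd, `H` CM, the exponent of the Galois group dividing `2^i q^b` for some `i`, where `q` is an odd prime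
and 2 is a primitive root modulo `q^b`; `r ≥ 1`. Let `c = g₀^(2^h)` be complex conjugation. If `m ≤ n + h + k` (resp. `m + 1 ≤ n + h + k` if `S` contains no finite place), then `d 2^k u` is in Rubin's lattice for
some odd `d`, that is `2^k u ∈ 𝓛 ⊗ ℤ_(2)`, where `u` is the Rubin-Brumer-Stark element. If some element of the Galois group has order `2^m` (the Sylow 2-subgroup is cyclic), `d u` is in Rubin's lattice for some odd
`d`: `u ∈ 𝓛 ⊗ ℤ_(2)`. Here `ι : U → W` is the map from `U` to `ℚU` and `j : N → W` is the inclusion of `ℚU^-`. -/
theorem result : ∀ (F H : Type) [Field F] [NumberField F] [Field H] [NumberField H] [Algebra F H]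
    [IsAbelianGalois F H] [IsTotallyReal F] [IsCMField H] (r : ℕ), 1 ≤ r → ∀ (D : RData F H r) (m l : ℕ),
    Nat.card (H ≃ₐ[F] H) = 2 ^ m * l → Odd l →
    ∀ q b : ℕ, q.Prime → q ≠ 2 → orderOf (2 : ZMod (q ^ b)) = Nat.totient (q ^ b) →
    (∀ g : H ≃ₐ[F] H, ∃ i : ℕ, g ^ (2 ^ i * q ^ b) = 1) →
    ∀ (W N : Type) [AddCommGroup W] [Module (QGr F H) W] [AddCommGroup N] [Module (QGr F H) N] (ι : UU D → W), IsQU D ι →
    ∀ j : N →ₗ[QGr F H] W, IsMinus D.c j → ∀ u : EP (QGr F H) N r, IsRBS D ι j u →
    (∀ (h k : ℕ) (g₀ : H ≃ₐ[F] H), g₀ ^ 2 ^ h = D.c → m + (if D.S = ∅ then 1 else 0) ≤ finrank ℚ F + h + k →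
      ∃ d : ℕ, Odd d ∧ nsm (d * 2 ^ k) u ∈ RubinL D ι j) ∧
    ((∃ g₀ : H ≃ₐ[F] H, orderOf g₀ = 2 ^ m) → ∃ d : ℕ, Odd d ∧ nsm d u ∈ RubinL D ι j) := by
  intro F H _ _ _ _ _ _ _ _ r hr D m l hm hl q b hq hq2 hord hexp W N _ _ _ _ ι hι j hj u hu
  exact Pool.Agent.RMX.fin_mixed F H r hr D m l hm hl q b hq hq2 hord hexp W N ι hι j hj u hu

end Pool.Agent.Results.MP_24e2e7_nt.RubinMixedDegree
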