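import Pool.Agent.helper91.RB.Fin2

/-!
# MP_24e2e7_nt: Rubin's integrality at 2 for abelian CM extensions of 2-power degree

`F` is totally real of degree `n`, `H/F` is abelian of degree `2^m`, `H` is CM. The definitions are in `Pool/Agent/helper91/RB/Fin.lean` (`QGr` = the group ring `ℚ[G]`, `EP` = exterior power,
`detm` = the determinant map, `IsQU`, `IsMinus`, Rubin's lattice `RubinL`, `IsStickelberger`, `IsRBS`), `Spec5.lean` (the data `RData`, the group `Ut`, `ordZ`) and `Spec2.lean` (the values `chv` of
characters at primes, the Euler product `LE`, its analytic continuation `isL`, the values `LST = L_{S,T}(χ, 0)`).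

Proof: for an odd character `χ` let `K` be the fixed field of `ker χ`. The functional equation and the residues of the zeta functions of `K` and `K⁺` give the product of
the values of `L_{S,T}` over the conjugates of `χ`; the index of the lattice of the elements of `U` in `K` is bounded by the ambiguous class number formula for `K/K⁺`;
all unknown terms cancel. As 2 is totally ramified in the 2-power cyclotomic fields this bounds the 2-adic order of each single value `χ(φ(u))`, and a summation over
the characters which agree on the cyclic group generated by `g₀` bounds the coefficients.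
-/

set_option autoImplicit false

namespace Pool.Agent.Results.MP_24e2e7_nt.RubinTwoPower

open Pool.Agent.RB NumberField IsDedekindDomain Module
open scoped nonZeroDivisors Real Classical IsMulCommutative

/-- **Rubin's integrality at 2.** `F` totally real of degree `n`, `H/F` abelian of degree `2^m`, `H` CM, exponent of the Galois group dividing `2^a`, complex
conjugation `c = g₀^(2^h)`, and `r ≥ 1`. Let `s` be the number of finite places in `S`. If `m + 1 ≤ n + h + k` (for `s = 0`), resp.
`m 2^(a-1) + 2 ≤ (n + h + k) 2^(a-1) + s + 2^(a-1-h)` (for `s > 0`), then `d 2^k u` is in Rubin's lattice for some odd `d`, that is `2^k u ∈ 𝓛 ⊗ ℤ_(2)`, where `u` is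
the Rubin-Brumer-Stark element. For cyclic `H/F`, `d u` is in Rubin's lattice for some odd `d`: `u ∈ 𝓛 ⊗ ℤ_(2)`. Here `ι : U → W` is the map from `U` to `ℚU` and `j : N → W` is the
inclusion of `ℚU^-`. -/
theorem result : ∀ (F H : Type) [Field F] [NumberField F] [Field H] [NumberField H] [Algebra F H]
    [IsAbelianGalois F H] [IsTotallyReal F] [IsCMField H] (r : ℕ), 1 ≤ r → ∀ (D : RData F H r) (m : ℕ),
    Nat.card (H ≃ₐ[F] H) = 2 ^ m →
    ∀ (W N : Type) [AddCommGroup W] [Module (QGr F H) W] [AddCommGroup N] [Module (QGr F H) N] (ι : UU D → W), IsQU D ι →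
    ∀ j : N →ₗ[QGr F H] W, IsMinus D.c j → ∀ u : EP (QGr F H) N r, IsRBS D ι j u →
    (∀ (a h k : ℕ) (g₀ : H ≃ₐ[F] H), (∀ g : H ≃ₐ[F] H, g ^ 2 ^ a = 1) → g₀ ^ 2 ^ h = D.c →
      (D.S = ∅ → m + 1 ≤ finrank ℚ F + h + k) →
      (D.S ≠ ∅ → m * 2 ^ (a - 1) + 2 ≤ (finrank ℚ F + h + k) * 2 ^ (a - 1) + D.S.card + 2 ^ (a - 1 - h)) →
      ∃ d : ℕ, Odd d ∧ nsm (d * 2 ^ k) u ∈ RubinL D ι j) ∧
    (IsCyclic (H ≃ₐ[F] H) → ∃ d : ℕ, Odd d ∧ nsm d u ∈ RubinL D ι j) :=
  fin_of_rbf fin_rbf

end Pool.Agent.Results.MP_24e2e7_nt.RubinTwoPower
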